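import Pool.Agent.R215.PM.Final

set_option autoImplicit false
open MeasureTheory Set
open Pool.Agent.R215.PM

namespace Pool.Agent.Results.MP_bfb34b_an.MaxPopNotMonotone

/-- There is an interval `(0, L)` with capacity `K` and strategy `P` (positive, `C²`, `K/P` not
constant) such that `S(1/2) < S(1/4)`; positive solutions are unique for all exponents. -/
theorem result : ∃ (L : ℝ) (K P : ℝ → ℝ), Habitat L K P ∧
    (∀ lam d : ℝ, 0 < d → ∀ u u' : ℝ → ℝ, IsPosSol L K P lam d u → IsPosSol L K P lam d u' →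
      ∀ x ∈ Icc 0 L, u x = u' x) ∧
    maxPop L K P (1 / 2) < maxPop L K P (1 / 4) := by
  refine ⟨LL, KK, PP, habitat, fun lam d hd u u' h1 h2 => isPosSol_unique habitat hd h1 h2, ?_⟩
  have h1 : maxPop LL KK PP (1 / 2) ≤
      (((∫ x in (0:ℝ)..LL, KK x) + 1 / 2 ^ 100 : ℝ) : EReal) := by
    unfold maxPop
    refine iSup_le fun d => iSup_le fun hd => iSup_le fun u => iSup_le fun hu => ?_
    exact EReal.coe_le_coe_iff.2 (upper_final hd hu)
  have h2 : (((∫ x in (0:ℝ)..LL, KK x) + 1 / 2 ^ 72 : ℝ) : EReal) ≤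
      maxPop LL KK PP (1 / 4) := by
    unfold maxPop
    refine le_iSup_of_le 1 (le_iSup_of_le one_pos (le_iSup_of_le (fun x => PP x * ww x)
      (le_iSup_of_le sol_quarter ?_)))
    exact EReal.coe_le_coe_iff.2 pop_quarter
  have h3 : (((∫ x in (0:ℝ)..LL, KK x) + 1 / 2 ^ 100 : ℝ) : EReal) <
      (((∫ x in (0:ℝ)..LL, KK x) + 1 / 2 ^ 72 : ℝ) : EReal) := by
    rw [EReal.coe_lt_coe_iff]
    norm_num
  exact lt_of_le_of_lt h1 (lt_of_lt_of_le h3 h2)

end Pool.Agent.Results.MP_bfb34b_an.MaxPopNotMonotone
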